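import Pool.Agent.Q51.EL.Stm
import Pool.Agent.H341R2.Stepanov

/-!
# Project EL, job SOLV: everywhere locally soluble twists
-/

set_option autoImplicit false

namespace Q52.EL

open Polynomial
open Pool.Agent.Q51.EL (hom CurvePt ELS S_SOLV)

/-- squares in the `p`-adic numbers -/
lemma sq_of (p : ℕ) [Fact p.Prime] (N t : ℤ) (hN : ¬ (p : ℤ) ∣ N)
    (hd : ‖((t ^ 2 - N : ℤ) : ℤ_[p])‖ < ‖(2 : ℤ_[p])‖ ^ 2) :
    ∃ s : ℚ_[p], s ≠ 0 ∧ s ^ 2 = (N : ℚ_[p]) := by
  have h2 : ‖(2 : ℤ_[p])‖ ^ 2 ≤ 1 := pow_le_one₀ (norm_nonneg _) (PadicInt.norm_le_one _)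
  have h1 : (p : ℤ) ∣ t ^ 2 - N := (PadicInt.norm_int_lt_one_iff_dvd _).1 (hd.trans_le h2)
  have ht : ¬ (p : ℤ) ∣ t := by
    intro h
    apply hN
    have h3 : N = t * t - (t ^ 2 - N) := by ring
    rw [h3]
    exact dvd_sub (Dvd.dvd.mul_right h t) h1
  have htn : ‖(t : ℤ_[p])‖ = 1 := by
    refine le_antisymm (PadicInt.norm_le_one _) (not_lt.1 fun h => ht ?_)
    exact (PadicInt.norm_int_lt_one_iff_dvd _).1 h
  have hns : ‖Polynomial.aeval (t : ℤ_[p]) (X ^ 2 - C (N : ℤ_[p]) : ℤ_[p][X])‖ <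
      ‖Polynomial.aeval (t : ℤ_[p]) (derivative (X ^ 2 - C (N : ℤ_[p]) : ℤ_[p][X]))‖ ^ 2 := by
    have e1 : Polynomial.aeval (t : ℤ_[p]) (X ^ 2 - C (N : ℤ_[p]) : ℤ_[p][X]) =
        ((t ^ 2 - N : ℤ) : ℤ_[p]) := by
      simp
    have e2 : Polynomial.aeval (t : ℤ_[p]) (derivative (X ^ 2 - C (N : ℤ_[p]) : ℤ_[p][X])) =
        2 * (t : ℤ_[p]) := by
      rw [derivative_sub, derivative_C, sub_zero, derivative_X_pow]
      simp
    rw [e1, e2, norm_mul, htn, mul_one]
    exact hd
  obtain ⟨z, hz, -⟩ := hensels_lemma hns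
  have hz2 : z ^ 2 = (N : ℤ_[p]) := by
    have : z ^ 2 - (N : ℤ_[p]) = 0 := by simpa using hz
    exact sub_eq_zero.1 this
  refine ⟨(z : ℚ_[p]), ?_, ?_⟩
  · intro h0
    have h3 : z = 0 := Subtype.ext (by simpa using h0)
    rw [h3, zero_pow two_ne_zero] at hz2
    have h4 : ‖(N : ℤ_[p])‖ < 1 := by rw [← hz2, norm_zero]; exact one_pos
    exact hN ((PadicInt.norm_int_lt_one_iff_dvd _).1 h4)
  · rw [← PadicInt.coe_pow, hz2]
    simp

lemma norm_two_odd (p : ℕ) [hp : Fact p.Prime] (h : p ≠ 2) : ‖(2 : ℤ_[p])‖ = 1 := by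
  refine le_antisymm (PadicInt.norm_le_one _) (not_lt.1 fun h1 => h ?_)
  have h2 : ‖((2 : ℤ) : ℤ_[p])‖ < 1 := by exact_mod_cast h1
  have h3 := (PadicInt.norm_int_lt_one_iff_dvd _).1 h2
  have h4 : p ∣ 2 := by exact_mod_cast h3
  exact (Nat.prime_dvd_prime_iff_eq hp.out Nat.prime_two).1 h4

lemma sq_odd (p : ℕ) [Fact p.Prime] (h : p ≠ 2) (N t : ℤ) (hN : ¬ (p : ℤ) ∣ N)
    (hd : (p : ℤ) ∣ t ^ 2 - N) : ∃ s : ℚ_[p], s ≠ 0 ∧ s ^ 2 = (N : ℚ_[p]) := by
  apply sq_of p N t hN
  rw [norm_two_odd p h, one_pow]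
  exact (PadicInt.norm_int_lt_one_iff_dvd _).2 hd

lemma sq_two (N t : ℤ) (hN : ¬ (2 : ℤ) ∣ N)
    (hd : (8 : ℤ) ∣ t ^ 2 - N) : ∃ s : ℚ_[2], s ≠ 0 ∧ s ^ 2 = (N : ℚ_[2]) := by
  apply sq_of 2 N t (by exact_mod_cast hN)
  have h1 : ‖((t ^ 2 - N : ℤ) : ℤ_[2])‖ ≤ ((2 : ℕ) : ℝ) ^ (-(3 : ℕ) : ℤ) := by
    apply PadicInt.norm_int_le_pow_iff_dvd.2
    norm_num
    exact hd
  have h2 : ‖(2 : ℤ_[2])‖ = 1 / 2 := by
    have := PadicInt.norm_p (p := 2)
    rw [show ((2 : ℕ) : ℤ_[2]) = 2 from rfl] at this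
    rw [this]; norm_num
  rw [h2]
  refine h1.trans_lt ?_
  norm_num

/-- the polynomial `f` at a point of the affine part -/
lemma hom_one (f : ℤ[X]) {R : Type*} [CommRing R] (x : R) : hom f x 1 = aeval x f := by
  unfold hom
  rw [aeval_eq_sum_range]
  refine Finset.sum_congr rfl fun i _ => ?_
  rw [one_pow, mul_one, Algebra.smul_def]
  simp

/-- twisting by a square -/
lemma curvePt_mul (f : ℤ[X]) (D m : ℤ) (F : Type) [Field F] (s : F) (hs : s ≠ 0)
    (h : s ^ 2 = (m : F)) (hD : CurvePt f D F) : CurvePt f (D * m) F := by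
  obtain ⟨x, w, y, hxw, hy⟩ := hD
  refine ⟨x, w, y / s, hxw, ?_⟩
  rw [← hy, div_pow, Int.cast_mul, ← h]
  field_simp

/-- clearing denominators in a Bezout identity -/
lemma bezout (f : ℤ[X]) (hf : Irreducible (f.map (Int.castRingHom ℚ))) :
    ∃ (c : ℤ) (U V : ℤ[X]), c ≠ 0 ∧ U * f + V * derivative f = C c := by
  have hsep : (f.map (Int.castRingHom ℚ)).Separable := hf.separable
  obtain ⟨U, V, hUV⟩ := hsep
  obtain ⟨b1, hb1', hb1⟩ := IsLocalization.integerNormalization_spec (nonZeroDivisors ℤ) U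
  obtain ⟨b2, hb2', hb2⟩ := IsLocalization.integerNormalization_spec (nonZeroDivisors ℤ) V
  set U' := IsLocalization.integerNormalization (nonZeroDivisors ℤ) U
  set V' := IsLocalization.integerNormalization (nonZeroDivisors ℤ) V
  have hb10 : b1 ≠ 0 := nonZeroDivisors.ne_zero hb1'
  have hb20 : b2 ≠ 0 := nonZeroDivisors.ne_zero hb2'
  refine ⟨b1 * b2, (b2 : ℤ[X]) * U', (b1 : ℤ[X]) * V', mul_ne_zero hb10 hb20, ?_⟩
  apply Polynomial.map_injective (Int.castRingHom ℚ) Int.cast_injective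
  have e1 : U'.map (Int.castRingHom ℚ) = (b1 : ℚ[X]) * U := by
    rw [show (Int.castRingHom ℚ) = algebraMap ℤ ℚ from rfl, hb1, zsmul_eq_mul]
  have e2 : V'.map (Int.castRingHom ℚ) = (b2 : ℚ[X]) * V := by
    rw [show (Int.castRingHom ℚ) = algebraMap ℤ ℚ from rfl, hb2, zsmul_eq_mul]
  rw [eq_intCast C (b1 * b2), Polynomial.map_add, Polynomial.map_mul, Polynomial.map_mul,
    Polynomial.map_mul, Polynomial.map_mul, e1, e2, ← Polynomial.derivative_map,
    Polynomial.map_intCast, Polynomial.map_intCast, Polynomial.map_intCast, Int.cast_mul]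
  linear_combination ((b1 : ℚ[X]) * (b2 : ℚ[X])) * hUV

/-- a value which is a nonzero square -/
lemma exists_value (p : ℕ) [Fact p.Prime] (hp2 : p ≠ 2) (g : (ZMod p)[X]) (n : ℕ) (hn : 1 ≤ n)
    (hg : g.natDegree = n) (hs : g.Separable) (hpn : 144 * n ^ 2 < p) :
    ∃ x z : ZMod p, z ≠ 0 ∧ g.eval x = z ^ 2 := by
  classical
  by_contra hcon
  push Not at hcon
  have hchar : ringChar (ZMod p) ≠ 2 := by rwa [ZMod.ringChar_zmod_n]
  have hns : ∀ (c : ZMod p) (h : (ZMod p)[X]), g ≠ C c * h ^ 2 := by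
    intro c h he
    have h1 : IsUnit h := by
      have h2 := hs.squarefree
      exact h2 h (by rw [he]; exact ⟨C c, by ring⟩)
    have h3 := Polynomial.natDegree_eq_zero_of_isUnit h1
    have h4 : g.natDegree ≤ 0 := by
      rw [he]
      refine (Polynomial.natDegree_C_mul_le _ _).trans ?_
      refine Polynomial.natDegree_pow_le.trans ?_
      rw [h3]
    omega
  have hw := Pool.Agent.H341R2.weil_bound hchar g (by rw [hg]; exact hn) hns
  rw [ZMod.card, hg] at hw
  have hg0 : g ≠ 0 := by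
    rintro rfl
    rw [natDegree_zero] at hg
    omega
  -- the sum is at most `n - p`
  have h1 : ∀ x : ZMod p, (quadraticChar (ZMod p) (g.eval x) : ℝ) ≤
      -1 + (if x ∈ g.roots.toFinset then (1 : ℝ) else 0) := by
    intro x
    by_cases hx : g.eval x = 0
    · rw [if_pos (by rw [Multiset.mem_toFinset, Polynomial.mem_roots hg0]; exact hx), hx]
      simp
    · rw [if_neg (by rw [Multiset.mem_toFinset, Polynomial.mem_roots hg0]; exact hx)]
      rcases quadraticChar_dichotomy hx with h | h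
      · exfalso
        obtain ⟨z, hz⟩ := (quadraticChar_one_iff_isSquare hx).1 h
        apply hcon x z
        · rintro rfl
          exact hx (by rw [hz, mul_zero])
        · rw [hz, sq]
      · rw [h]; norm_num
  have h2 : ∑ x : ZMod p, (quadraticChar (ZMod p) (g.eval x) : ℝ) ≤ -(p : ℝ) + n := by
    refine (Finset.sum_le_sum fun x _ => h1 x).trans ?_
    rw [Finset.sum_add_distrib, Finset.sum_const, Finset.card_univ, ZMod.card, nsmul_eq_mul,
      mul_neg_one, Finset.sum_ite_mem, Finset.univ_inter, Finset.sum_const, nsmul_eq_mul, mul_one]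
    have h3 : g.roots.toFinset.card ≤ n := by
      rw [← hg]
      exact (Multiset.toFinset_card_le _).trans (Polynomial.card_roots' g)
    have h4 : (g.roots.toFinset.card : ℝ) ≤ n := by exact_mod_cast h3
    linarith
  have h3 := (abs_le.1 hw).1
  set r := Real.sqrt (p : ℝ) with hr
  have hr2 : r ^ 2 = p := Real.sq_sqrt (Nat.cast_nonneg _)
  have hr0 : 0 ≤ r := Real.sqrt_nonneg _
  have hn1 : (1 : ℝ) ≤ n := by exact_mod_cast hn
  have h5 : (144 : ℝ) * n ^ 2 < p := by exact_mod_cast hpn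
  have h6 : 12 * (n : ℝ) < r := by
    apply lt_of_pow_lt_pow_left₀ 2 hr0
    rw [hr2]
    nlinarith
  nlinarith

theorem solv : S_SOLV := by
  intro f hirr D0 hD0 hELS
  obtain ⟨c, U, V, hc, hUV⟩ := bezout f hirr
  have hinj : Function.Injective (Int.castRingHom ℚ) := Int.cast_injective
  have hn : 1 ≤ f.natDegree := by
    have h1 : (f.map (Int.castRingHom ℚ)).natDegree = f.natDegree :=
      Polynomial.natDegree_map_eq_of_injective hinj f
    rw [← h1]
    exact Polynomial.natDegree_pos_iff_degree_pos.2 hirr.degree_pos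
  have hf0 : f ≠ 0 := by
    rintro rfl
    rw [natDegree_zero] at hn
    omega
  set n := f.natDegree with hnd
  set W : ℕ := 8 * D0.natAbs * f.leadingCoeff.natAbs * c.natAbs * (144 * n ^ 2).factorial with hW
  have hW0 : W ≠ 0 := by
    rw [hW]
    have h1 : D0.natAbs ≠ 0 := Int.natAbs_ne_zero.2 hD0
    have h2 : f.leadingCoeff.natAbs ≠ 0 := Int.natAbs_ne_zero.2 (leadingCoeff_ne_zero.2 hf0)
    have h3 : c.natAbs ≠ 0 := Int.natAbs_ne_zero.2 hc
    have h4 := Nat.factorial_ne_zero (144 * n ^ 2)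
    positivity
  have hDW : D0 ∣ (W : ℤ) := by
    rw [← Int.natAbs_dvd_natAbs, Int.natAbs_natCast]
    exact ⟨8 * f.leadingCoeff.natAbs * c.natAbs * (144 * n ^ 2).factorial, by rw [hW]; ring⟩
  have haW : f.leadingCoeff ∣ (W : ℤ) := by
    rw [← Int.natAbs_dvd_natAbs, Int.natAbs_natCast]
    exact ⟨8 * D0.natAbs * c.natAbs * (144 * n ^ 2).factorial, by rw [hW]; ring⟩
  have hcW : c ∣ (W : ℤ) := by
    rw [← Int.natAbs_dvd_natAbs, Int.natAbs_natCast]
    exact ⟨8 * D0.natAbs * f.leadingCoeff.natAbs * (144 * n ^ 2).factorial, by rw [hW]; ring⟩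
  have h8W : (8 : ℤ) ∣ (W : ℤ) := by
    have : 8 ∣ W := ⟨D0.natAbs * f.leadingCoeff.natAbs * c.natAbs * (144 * n ^ 2).factorial, by
      rw [hW]; ring⟩
    exact_mod_cast this
  refine ⟨W, hW0, hDW, ?_⟩
  rintro m hm hmW ⟨t, ht⟩ hq
  refine ⟨?_, ?_⟩
  · -- the real place
    have hmr : (0 : ℝ) < m := by exact_mod_cast hm
    exact curvePt_mul f D0 m ℝ (Real.sqrt m) (Real.sqrt_pos.2 hmr).ne'
      (by rw [Real.sq_sqrt hmr.le]; simp) hELS.1
  · intro p hp
    have hpp := hp.out
    by_cases hpW : p ∣ W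
    · -- `m` is a square
      have hpm : ¬ (p : ℤ) ∣ (m : ℤ) := by
        intro h
        have h1 : p ∣ m := by exact_mod_cast h
        have h2 : p ∣ Nat.gcd m W := Nat.dvd_gcd h1 hpW
        rw [hmW.gcd_eq_one] at h2
        exact hpp.one_lt.ne' (Nat.dvd_one.1 h2)
      have ht' : (W : ℤ) ∣ t ^ 2 - m := by
        have := (dvd_neg).2 ht
        rwa [neg_sub] at this
      obtain ⟨s, hs0, hs⟩ : ∃ s : ℚ_[p], s ≠ 0 ∧ s ^ 2 = ((m : ℤ) : ℚ_[p]) := by
        by_cases h2 : p = 2
        · subst h2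
          exact sq_two m t (by exact_mod_cast hpm) (h8W.trans ht')
        · exact sq_odd p h2 m t hpm ((show (p : ℤ) ∣ W by exact_mod_cast hpW).trans ht')
      exact curvePt_mul f D0 m ℚ_[p] s hs0 hs (hELS.2 p)
    · have hp2 : p ≠ 2 := by
        rintro rfl
        apply hpW
        have : (2 : ℤ) ∣ W := (by norm_num : (2 : ℤ) ∣ 8).trans h8W
        exact_mod_cast this
      have hpc : ¬ (p : ℤ) ∣ c := fun h => hpW (by exact_mod_cast h.trans hcW)
      have hpa : ¬ (p : ℤ) ∣ f.leadingCoeff := fun h => hpW (by exact_mod_cast h.trans haW)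
      have hpD : ¬ (p : ℤ) ∣ D0 := fun h => hpW (by exact_mod_cast h.trans hDW)
      by_cases hpm : p ∣ m
      · -- a zero of `f`
        obtain ⟨r, hr⟩ := hq p hpp hpm
        have h1 : ‖Polynomial.aeval (r : ℤ_[p]) f‖ < ‖Polynomial.aeval (r : ℤ_[p]) (derivative f)‖ ^ 2 := by
          have e1 : Polynomial.aeval (r : ℤ_[p]) f = ((f.eval r : ℤ) : ℤ_[p]) := by
            rw [← eq_intCast (algebraMap ℤ ℤ_[p]) r, aeval_algebraMap_apply]
            simp
          have e2 : Polynomial.aeval (r : ℤ_[p]) (derivative f) =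
              (((derivative f).eval r : ℤ) : ℤ_[p]) := by
            rw [← eq_intCast (algebraMap ℤ ℤ_[p]) r, aeval_algebraMap_apply]
            simp
          have h2 : ¬ (p : ℤ) ∣ (derivative f).eval r := by
            intro h
            apply hpc
            have h3 := congrArg (Polynomial.eval r) hUV
            rw [eval_add, eval_mul, eval_mul, eval_C] at h3
            rw [← h3]
            exact dvd_add (Dvd.dvd.mul_left hr _) (Dvd.dvd.mul_left h _)
          have h3 : ‖(((derivative f).eval r : ℤ) : ℤ_[p])‖ = 1 := by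
            refine le_antisymm (PadicInt.norm_le_one _) (not_lt.1 fun h => h2 ?_)
            exact (PadicInt.norm_int_lt_one_iff_dvd _).1 h
          rw [e1, e2, h3, one_pow]
          exact (PadicInt.norm_int_lt_one_iff_dvd _).2 hr
        obtain ⟨z, hz, -⟩ := hensels_lemma h1
        refine ⟨(z : ℚ_[p]), 1, 0, Or.inr one_ne_zero, ?_⟩
        rw [hom_one]
        have h2 : Polynomial.aeval (z : ℚ_[p]) f = ((Polynomial.aeval z f : ℤ_[p]) : ℚ_[p]) := by
          have := Polynomial.aeval_algebraMap_apply ℚ_[p] z f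
          exact this
        rw [h2, hz]
        simp
      · -- a point of good reduction
        have hpn : 144 * n ^ 2 < p := by
          by_contra hcon
          rw [not_lt] at hcon
          exact hpW ((Dvd.dvd.mul_left ((hpp.dvd_factorial).2 hcon) _))
        have hpDm : ¬ (p : ℤ) ∣ D0 * m := by
          intro h
          rcases (Nat.prime_iff_prime_int.1 hpp).dvd_or_dvd h with h | h
          · exact hpD h
          · exact hpm (by exact_mod_cast h)
        set π : ℤ →+* ZMod p := Int.castRingHom (ZMod p) with hπ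
        have hπ0 : ∀ k : ℤ, π k = 0 ↔ (p : ℤ) ∣ k := fun k => by
          rw [hπ, eq_intCast, ZMod.intCast_zmod_eq_zero_iff_dvd]
        set g : (ZMod p)[X] := C (π (D0 * m)) * f.map π with hg
        have hDm : π (D0 * m) ≠ 0 := fun h => hpDm ((hπ0 _).1 h)
        have hfdeg : (f.map π).natDegree = n := by
          apply Polynomial.natDegree_map_of_leadingCoeff_ne_zero
          exact fun h => hpa ((hπ0 _).1 h)
        have hgdeg : g.natDegree = n := by
          rw [hg, Polynomial.natDegree_C_mul hDm, hfdeg]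
        have hfsep : (f.map π).Separable := by
          have h3 := congrArg (Polynomial.map π) hUV
          rw [Polynomial.map_add, Polynomial.map_mul, Polynomial.map_mul, Polynomial.map_C,
            ← Polynomial.derivative_map] at h3
          have hc0 : π c ≠ 0 := fun h => hpc ((hπ0 _).1 h)
          refine ⟨C (π c)⁻¹ * U.map π, C (π c)⁻¹ * V.map π, ?_⟩
          have h4 : C (π c)⁻¹ * C (π c) = 1 := by
            rw [← C_mul, inv_mul_cancel₀ hc0, C_1]
          linear_combination (C (π c)⁻¹) * h3 + h4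
        have hgsep : g.Separable := by
          rw [hg]
          exact Polynomial.Separable.unit_mul (Polynomial.isUnit_C.2 (isUnit_iff_ne_zero.2 hDm)) hfsep
        obtain ⟨x, z, hz0, hxz⟩ := exists_value p hp2 g n hn hgdeg hgsep hpn
        obtain ⟨x', rfl⟩ := ZMod.intCast_surjective x
        obtain ⟨z', rfl⟩ := ZMod.intCast_surjective z
        have hval : g.eval ((x' : ℤ) : ZMod p) = ((D0 * m * f.eval x' : ℤ) : ZMod p) := by
          rw [hg, eval_mul, eval_C]
          have : (f.map π).eval ((x' : ℤ) : ZMod p) = π (f.eval x') := by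
            rw [← eq_intCast π x', Polynomial.eval_map_apply]
          rw [this, ← map_mul, hπ, eq_intCast]
        have hdiv : (p : ℤ) ∣ z' ^ 2 - D0 * m * f.eval x' := by
          rw [← ZMod.intCast_zmod_eq_zero_iff_dvd]
          rw [Int.cast_sub, ← hval, hxz]
          push_cast
          ring
        have hnd' : ¬ (p : ℤ) ∣ D0 * m * f.eval x' := by
          intro h
          apply hz0
          rw [ZMod.intCast_zmod_eq_zero_iff_dvd]
          have h5 := dvd_add hdiv h
          rw [sub_add_cancel] at h5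
          exact (Nat.prime_iff_prime_int.1 hpp).dvd_of_dvd_pow h5
        obtain ⟨s, hs0, hs⟩ := sq_odd p hp2 _ z' hnd' hdiv
        have hD0' : ((D0 * m : ℤ) : ℚ_[p]) ≠ 0 := by
          intro h
          have : (D0 * m : ℤ) = 0 := by exact_mod_cast h
          rw [this] at hpDm
          exact hpDm (dvd_zero _)
        refine ⟨(x' : ℚ_[p]), 1, s / ((D0 * m : ℤ) : ℚ_[p]), Or.inr one_ne_zero, ?_⟩
        rw [hom_one, div_pow, hs]
        have e1 : Polynomial.aeval (x' : ℚ_[p]) f = ((f.eval x' : ℤ) : ℚ_[p]) := by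
          rw [← eq_intCast (algebraMap ℤ ℚ_[p]) x', aeval_algebraMap_apply]
          simp
        rw [e1]
        rw [Int.cast_mul (D0 * m) (f.eval x')]
        field_simp

end Q52.EL
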